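import Pool.Agent.Q277.DP.Urt

/-!
# Project DP: job DP-28 (S_K1)
-/

set_option autoImplicit false

namespace Pool.Agent.Q277.DP

open MeasureTheory Topology Filter Set Metric
open Pool.Agent.Q61.DP

theorem angle_contOn {n : E3} (hn : ‖n‖ = 1) :
    ContinuousOn (fun w : E3 => InnerProductGeometry.angle w n) {w | ‖w‖ = 1} := by
  intro w hw
  have := InnerProductGeometry.continuousAt_angle (x := (w, n)) (ne_of_norm hw) (ne_of_norm hn)
  exact (ContinuousAt.comp (f := fun v : E3 => (v, n)) (g := fun y : E3 × E3 =>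
      InnerProductGeometry.angle y.1 y.2) this (by fun_prop)).continuousWithinAt

theorem t_K1 (hT : S_TRI) (hR : S_RAD) (hN : S_NE) (hD : S_DL) (hM : S_MV) : S_K1 := by
  intro P hP hNP z g τ hg hτ0 hτ1 hτ2
  have hn := hP.2.1 z
  have hr0 := (hR P hP z).1
  set K : Set E3 := {w | ‖w‖ = 1 ∧ InnerProductGeometry.angle w (P z) ≤ τ} with hK
  have hKs : K ⊆ {w | ‖w‖ = 1} := fun w hw => hw.1
  have hKcap : K ⊆ capA (P z) (rad P z) := fun w hw => ⟨hw.1, by have := hw.2; linarith⟩
  have hKc : IsCompact K := by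
    refine (isCompact_sphere (0 : E3) 1).of_isClosed_subset ?_ ?_
    · have h1 : IsClosed ({w : E3 | ‖w‖ = 1} ∩ (fun w : E3 => InnerProductGeometry.angle w (P z)) ⁻¹' Iic τ) := by
        refine (angle_contOn hn).preimage_isClosed_of_isClosed ?_ isClosed_Iic
        exact isClosed_eq (by fun_prop) (by fun_prop)
      exact h1
    · intro w hw
      rw [mem_sphere_zero_iff_norm]
      exact hw.1
  have hPzK : P z ∈ K := ⟨hn, by rw [InnerProductGeometry.angle_self (ne_of_norm hn)]; exact hτ0.le⟩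
  have hcr : ContinuousOn (fun w => rad P (g w)) K :=
    (hT P hP).1.comp_continuousOn (hg.1.1.mono hKcap)
  have hca : ContinuousOn (fun w : E3 => InnerProductGeometry.angle w (P z)) K :=
    (angle_contOn hn).mono hKs
  have hgz : rad P (g (P z)) = rad P z := by rw [hg.2]
  have main : ∀ κ : ℝ, 0 ≤ κ → κ < 1 → ∃ w ∈ K, rad P z + κ * τ ≤ rad P (g w) := by
    intro κ hκ0 hκ1
    have hcont : ContinuousOn (fun w => rad P (g w) - κ * InnerProductGeometry.angle w (P z)) K :=
      hcr.sub (continuousOn_const.mul hca)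
    obtain ⟨w, hwK, hw⟩ := hKc.exists_isMaxOn ⟨P z, hPzK⟩ hcont
    refine ⟨w, hwK, ?_⟩
    have h0 : rad P (g (P z)) - κ * InnerProductGeometry.angle (P z) (P z) ≤
        rad P (g w) - κ * InnerProductGeometry.angle w (P z) := hw hPzK
    rw [hgz, InnerProductGeometry.angle_self (ne_of_norm hn), mul_zero, sub_zero] at h0
    by_contra hlt
    push Not at hlt
    have hang : InnerProductGeometry.angle w (P z) < τ := by
      by_contra h
      push Not at h
      have := mul_le_mul_of_nonneg_left h hκ0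
      linarith
    have hκτ : κ * τ ≤ τ := by nlinarith
    have hrad : rad P (g w) < Real.pi / 2 := by linarith
    have hwcap := hKcap hwK
    obtain ⟨hPg, -, hag⟩ := (hT P hP).2.1 z g w hg hwcap
    obtain ⟨c, hc⟩ := hN P hP (g w) hrad
    obtain ⟨hr1, -, g₁, hg₁, hg₁'⟩ := hR P hP (g w)
    have hbr : IsBr P (g w) g₁ := ⟨hg₁, hg₁'⟩
    have hcw : InnerProductGeometry.angle c w = rad P (g w) := by
      have := hc.2.1
      rwa [hPg] at this
    have hδ : 0 < min (min (τ - InnerProductGeometry.angle w (P z)) (rad P (g w))) Real.pi :=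
      lt_min (lt_min (by linarith) hr1) Real.pi_pos
    obtain ⟨s, hs0, hs1, hs2⟩ := hD P hP hNP (g w) g₁ c ((1 + κ) / 2) hbr hrad hc (by linarith) _ hδ
    rw [hPg] at hs2
    have hmv := hM w c hwK.1 hc.1 (by rw [hcw]; exact hr1) (by rw [hcw]; linarith [Real.pi_pos])
    set p := mv w c s with hp
    have hp1 : ‖p‖ = 1 := hmv.1 s
    have hs3 : s < τ - InnerProductGeometry.angle w (P z) :=
      hs1.trans_le ((min_le_left _ _).trans (min_le_left _ _))
    have hs4 : s < rad P (g w) := hs1.trans_le ((min_le_left _ _).trans (min_le_right _ _))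
    have hs5 : s < Real.pi := hs1.trans_le (min_le_right _ _)
    have hpw : InnerProductGeometry.angle p w = s := by
      rw [hmv.2.2.2.1 s (by rw [abs_of_pos hs0]; exact hs5.le), abs_of_pos hs0]
    have htri := InnerProductGeometry.angle_le_angle_add_angle p w (P z)
    have hpK : p ∈ K := ⟨hp1, by linarith⟩
    have hgp : g₁ p = g p := hag g₁ hbr p ⟨hKcap hpK, hp1, by rw [hpw]; exact hs4⟩
    rw [hgp] at hs2
    have h3 : rad P (g p) - κ * InnerProductGeometry.angle p (P z) ≤
        rad P (g w) - κ * InnerProductGeometry.angle w (P z) := hw hpK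
    nlinarith
  obtain ⟨w, hwK, hw⟩ := hKc.exists_isMaxOn ⟨P z, hPzK⟩ hcr
  refine ⟨w, hwK.1, hwK.2, ?_⟩
  by_contra hlt
  push Not at hlt
  have h1 : rad P (g (P z)) ≤ rad P (g w) := hw hPzK
  rw [hgz] at h1
  set κ := ((rad P (g w) - rad P z) / τ + 1) / 2 with hκ
  have hq : (rad P (g w) - rad P z) / τ < 1 := by
    rw [div_lt_one hτ0]
    linarith
  have hq0 : 0 ≤ (rad P (g w) - rad P z) / τ := div_nonneg (by linarith) hτ0.le
  obtain ⟨w', hw'K, hw'⟩ := main κ (by rw [hκ]; linarith) (by rw [hκ]; linarith)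
  have h2 : rad P (g w') ≤ rad P (g w) := hw hw'K
  have h3 : rad P (g w) - rad P z < κ * τ := by
    have : (rad P (g w) - rad P z) / τ < κ := by rw [hκ]; linarith
    rwa [div_lt_iff₀ hτ0] at this
  linarith

end Pool.Agent.Q277.DP
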