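import Pool.Agent.Q61.DP.Stm

/-!
# Project DP: job DP-25 (S_Q)
-/

set_option autoImplicit false

namespace Pool.Agent.Q277.DP

open MeasureTheory Topology Filter Set Metric
open Pool.Agent.Q61.DP

theorem mem_cap {n w : E3} {r : ℝ} (hn : ‖n‖ = 1) (hw : ‖w‖ = 1) (h0 : 0 ≤ r) (h1 : r ≤ Real.pi) :
    w ∈ capA n r ↔ Real.cos r < inner ℝ w n := by
  have h2 : Real.cos (InnerProductGeometry.angle w n) = inner ℝ w n := by
    rw [InnerProductGeometry.cos_angle, hw, hn]
    simp
  constructor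
  · rintro ⟨-, h⟩
    rw [← h2]
    exact Real.strictAntiOn_cos ⟨InnerProductGeometry.angle_nonneg w n, InnerProductGeometry.angle_le_pi w n⟩
      ⟨h0, h1⟩ h
  · intro h
    refine ⟨hw, ?_⟩
    rw [← h2] at h
    exact (Real.strictAntiOn_cos.lt_iff_gt ⟨h0, h1⟩
      ⟨InnerProductGeometry.angle_nonneg w n, InnerProductGeometry.angle_le_pi w n⟩).1 h

theorem exists_orth (n : E3) : ∃ c : E3, ‖c‖ = 1 ∧ inner ℝ c n = 0 := by
  have h1 : ∃ v : E3, v ≠ 0 ∧ inner ℝ v n = 0 := by
    by_cases h : n 0 = 0 ∧ n 1 = 0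
    · refine ⟨!₂[1, 0, 0], fun h2 => ?_, ?_⟩
      · have := congrFun (congrArg (fun x : E3 => (x : Fin 3 → ℝ)) h2) 0
        simp at this
      · simp [PiLp.inner_apply, Fin.sum_univ_three, h.1]
    · refine ⟨!₂[-(n 1), n 0, 0], fun h2 => ?_, ?_⟩
      · apply h
        have e0 := congrFun (congrArg (fun x : E3 => (x : Fin 3 → ℝ)) h2) 0
        have e1 := congrFun (congrArg (fun x : E3 => (x : Fin 3 → ℝ)) h2) 1
        simp at e0 e1
        exact ⟨e1, e0⟩
      · simp [PiLp.inner_apply, Fin.sum_univ_three]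
        ring
  obtain ⟨v, hv, hv2⟩ := h1
  refine ⟨‖v‖⁻¹ • v, ?_, ?_⟩
  · rw [norm_smul, norm_inv, norm_norm, inv_mul_cancel₀ (norm_ne_zero_iff.2 hv)]
  · rw [real_inner_smul_left, hv2, mul_zero]

theorem t_Q (hR : S_RAD) (hG : S_GLUE) : S_Q := by
  intro P hP hNP hNB z hz
  by_contra hno
  have hn : ‖P z‖ = 1 := hP.2.1 z
  obtain ⟨-, -, g, hg, hgz⟩ := hR P hP z
  have hbr : IsBr P z g := ⟨hg, hgz⟩
  have hpi := Real.pi_pos
  have ang : ∀ c : E3, InnerProductGeometry.angle c (P z) = Real.pi / 2 ↔ inner ℝ c (P z) = 0 := fun c =>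
    (InnerProductGeometry.inner_eq_zero_iff_angle_eq_pi_div_two c (P z)).symm
  have h1 : ∃ c : E3, ‖c‖ = 1 ∧ inner ℝ c (P z) = 0 ∧ ∀ c', Sing P z c' → c' = c := by
    by_cases h : ∃ c, Sing P z c
    · obtain ⟨c, hc⟩ := h
      refine ⟨c, hc.1, (ang c).1 (hz ▸ hc.2.1), fun c' hc' => ?_⟩
      rcases hNP z c c' hc hc' with h2 | h2
      · exact h2
      · exact absurd ⟨c, hc, h2 ▸ hc'⟩ hno
    · obtain ⟨c, hc1, hc2⟩ := exists_orth (P z)
      exact ⟨c, hc1, hc2, fun c' hc' => absurd ⟨c', hc'⟩ h⟩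
  obtain ⟨c, hc1, hc2, hc3⟩ := h1
  set K : Set E3 := {w | ‖w‖ = 1 ∧ inner ℝ w (P z) = 0 ∧ inner ℝ w c ≤ 2 / 3} with hK
  have hKc : IsCompact K := by
    refine (isCompact_sphere (0 : E3) 1).of_isClosed_subset ?_ ?_
    · have k1 : IsClosed {w : E3 | ‖w‖ = 1} := isClosed_eq (by fun_prop) (by fun_prop)
      have k2 : IsClosed {w : E3 | inner ℝ w (P z) = (0 : ℝ)} := isClosed_eq (by fun_prop) (by fun_prop)
      have k3 : IsClosed {w : E3 | inner ℝ w c ≤ (2 / 3 : ℝ)} := isClosed_le (by fun_prop) (by fun_prop)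
      exact k1.inter (k2.inter k3)
    · intro w hw
      rw [mem_sphere_zero_iff_norm]
      exact hw.1
  have hgl := hG P hP (P z) (Real.pi / 2) g K hn (by positivity) le_rfl (hz ▸ hg) hKc (by
    intro w hw
    refine ⟨hw.1, (ang w).2 hw.2.1, fun h => ?_⟩
    have hs : Sing P z w := ⟨hw.1, by rw [hz]; exact (ang w).2 hw.2.1, g, hbr, by rw [hz]; exact h⟩
    have h4 := hc3 w hs
    have h5 := hw.2.2
    rw [h4, real_inner_self_eq_norm_sq, hc1] at h5
    norm_num at h5)
  obtain ⟨ε, hε, g', hg', -⟩ := hgl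
  -- small numbers
  set ε₁ := min ε 1 with hε₁
  have hε₁0 : 0 < ε₁ := lt_min hε one_pos
  have hcos : Real.cos ε₁ < 1 := by
    have := Real.strictAntiOn_cos (show (0 : ℝ) ∈ Icc 0 Real.pi from ⟨le_rfl, hpi.le⟩)
      (show ε₁ ∈ Icc 0 Real.pi from ⟨hε₁0.le, (min_le_right _ _).trans (by linarith [Real.pi_gt_three])⟩) hε₁0
    rwa [Real.cos_zero] at this
  have hδ : ∃ δ > 0, ∀ A : ℝ, |A| < δ → max (Real.cos ε₁) (4 / 5) < Real.sqrt (1 - A ^ 2) := by
    have hcont : ContinuousAt (fun A : ℝ => Real.sqrt (1 - A ^ 2)) 0 := by fun_prop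
    have h2 : ∀ᶠ A in 𝓝 (0 : ℝ), max (Real.cos ε₁) (4 / 5) < Real.sqrt (1 - A ^ 2) := by
      apply hcont.eventually_const_lt
      simp only [ne_eq, OfNat.ofNat_ne_zero, not_false_eq_true, zero_pow, sub_zero, Real.sqrt_one]
      exact max_lt hcos (by norm_num)
    obtain ⟨δ, hδ, h3⟩ := Metric.eventually_nhds_iff.1 h2
    exact ⟨δ, hδ, fun A hA => h3 (by rwa [Real.dist_eq, sub_zero])⟩
  obtain ⟨δ, hδ0, hδ⟩ := hδ
  have ht : ∃ t : ℝ, 0 < t ∧ t < 1 ∧ 99 / 100 < Real.cos (t / 2) ∧ 1 / 2 < Real.cos t ∧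
      2 * (Real.sin (t / 2) + Real.sin t) < δ := by
    have h2 : ∀ᶠ t in 𝓝[>] (0 : ℝ), 99 / 100 < Real.cos (t / 2) := by
      have hcont : ContinuousAt (fun t : ℝ => Real.cos (t / 2)) 0 := by fun_prop
      exact (hcont.eventually_const_lt (by simp; norm_num)).filter_mono nhdsWithin_le_nhds
    have h3 : ∀ᶠ t in 𝓝[>] (0 : ℝ), 1 / 2 < Real.cos t := by
      have hcont : ContinuousAt (fun t : ℝ => Real.cos t) 0 := by fun_prop
      exact (hcont.eventually_const_lt (by simp; norm_num)).filter_mono nhdsWithin_le_nhds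
    have h4 : ∀ᶠ t in 𝓝[>] (0 : ℝ), 2 * (Real.sin (t / 2) + Real.sin t) < δ := by
      have hcont : ContinuousAt (fun t : ℝ => 2 * (Real.sin (t / 2) + Real.sin t)) 0 := by fun_prop
      exact (hcont.eventually_lt_const (by simpa using hδ0)).filter_mono nhdsWithin_le_nhds
    have h5 : ∀ᶠ t in 𝓝[>] (0 : ℝ), t < 1 :=
      (eventually_lt_nhds (by norm_num : (0 : ℝ) < 1)).filter_mono nhdsWithin_le_nhds
    obtain ⟨t, h6⟩ := ((h2.and (h3.and (h4.and h5))).and self_mem_nhdsWithin).exists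
    exact ⟨t, h6.2, h6.1.2.2.2, h6.1.1, h6.1.2.1, h6.1.2.2.1⟩
  obtain ⟨t, ht0, ht1, ht2, ht3, ht4⟩ := ht
  have hpi3 := Real.pi_gt_three
  set n : E3 := Real.cos t • P z - Real.sin t • c with hnn
  have hzc : inner ℝ (P z) c = 0 := by rw [real_inner_comm]; exact hc2
  have hnn1 : ‖n‖ = 1 := by
    have h2 : ‖n‖ ^ 2 = 1 := by
      rw [hnn, @norm_sub_sq_real, real_inner_smul_left, real_inner_smul_right, hzc, norm_smul,
        norm_smul, hn, hc1, Real.norm_eq_abs, Real.norm_eq_abs, mul_one, mul_one, sq_abs, sq_abs]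
      have := Real.sin_sq_add_cos_sq t
      linarith
    nlinarith [norm_nonneg n]
  have hsub : capA n (Real.pi / 2 + t / 2) ⊆ capA (P z) (Real.pi / 2) ∪ ⋃ c ∈ K, capA c ε := by
    intro w hw
    have hw1 : ‖w‖ = 1 := hw.1
    have hw2 := (mem_cap hnn1 hw1 (by linarith) (by linarith)).1 hw
    have h2 : Real.cos (Real.pi / 2 + t / 2) = -Real.sin (t / 2) := by
      rw [add_comm, Real.cos_add_pi_div_two]
    have h3 : inner ℝ w n = Real.cos t * inner ℝ w (P z) - Real.sin t * inner ℝ w c := by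
      rw [hnn, inner_sub_right, real_inner_smul_right, real_inner_smul_right]
    set A : ℝ := inner ℝ w (P z) with hA
    set B : ℝ := inner ℝ w c with hB
    rw [h2, h3] at hw2
    have hst : 0 < Real.sin t := Real.sin_pos_of_pos_of_lt_pi ht0 (by linarith)
    have hst2 : 0 < Real.sin (t / 2) := Real.sin_pos_of_pos_of_lt_pi (by linarith) (by linarith)
    have hB1 : -1 ≤ B := by
      have := abs_real_inner_le_norm w c
      rw [hw1, hc1, mul_one] at this
      exact (abs_le.1 this).1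
    rcases lt_or_ge 0 A with hA0 | hA0
    · left
      rw [mem_cap hn hw1 (by linarith) (by linarith), Real.cos_pi_div_two]
      exact hA0
    · right
      have h4 : Real.sin t = 2 * Real.sin (t / 2) * Real.cos (t / 2) := by
        rw [← Real.sin_two_mul]
        congr 1
        ring
      have h5 : Real.sin t * B < Real.sin (t / 2) := by nlinarith
      have h6 : 2 * Real.cos (t / 2) * B < 1 := by
        rw [h4] at h5
        have : Real.sin (t / 2) * (2 * Real.cos (t / 2) * B) < Real.sin (t / 2) * 1 := by linarith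
        exact lt_of_mul_lt_mul_left this hst2.le
      have h7 : B < 8 / 15 := by
        by_contra h
        nlinarith
      have h8 : |A| < δ := by
        rw [abs_of_nonpos hA0]
        nlinarith
      have h9 := hδ A h8
      set q := Real.sqrt (1 - A ^ 2) with hq
      have hq1 : 4 / 5 < q := (le_max_right _ _).trans_lt h9
      have hq2 : Real.cos ε₁ < q := (le_max_left _ _).trans_lt h9
      have hqs : q ^ 2 = 1 - A ^ 2 := by
        rw [hq]
        refine Real.sq_sqrt ?_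
        by_contra h
        rw [hq, Real.sqrt_eq_zero_of_nonpos (by linarith)] at hq1
        linarith
      have hq0 : 0 < q := by linarith
      set w' : E3 := q⁻¹ • (w - A • P z) with hw'
      have hww : inner ℝ w w = (1 : ℝ) := by rw [real_inner_self_eq_norm_sq, hw1]; norm_num
      have hpp : inner ℝ (P z) (P z) = (1 : ℝ) := by rw [real_inner_self_eq_norm_sq, hn]; norm_num
      have hpw : inner ℝ (P z) w = A := by rw [real_inner_comm]
      have g1 : ‖w - A • P z‖ ^ 2 = q ^ 2 := by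
        rw [hqs, @norm_sub_sq_real, real_inner_smul_right, ← hA, norm_smul, hw1, hn,
          Real.norm_eq_abs, mul_one, sq_abs]
        ring
      have g2 : ‖w - A • P z‖ = q := by
        have := abs_eq_abs.2 (sq_eq_sq_iff_eq_or_eq_neg.1 g1)
        rwa [abs_of_nonneg (norm_nonneg _), abs_of_pos hq0] at this
      have g3 : ‖w'‖ = 1 := by
        rw [hw', norm_smul, g2, norm_inv, Real.norm_eq_abs, abs_of_pos hq0, inv_mul_cancel₀ hq0.ne']
      have g4 : inner ℝ w' (P z) = (0 : ℝ) := by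
        rw [hw', real_inner_smul_left, inner_sub_left, real_inner_smul_left, hpp, ← hA]
        ring
      have g5 : inner ℝ w' c = q⁻¹ * B := by
        rw [hw', real_inner_smul_left, inner_sub_left, real_inner_smul_left, hzc, ← hB]
        ring
      have g6 : inner ℝ w w' = q := by
        rw [hw', real_inner_smul_right, inner_sub_right, real_inner_smul_right, hww, ← hA]
        have : (1 : ℝ) - A * A = q ^ 2 := by rw [hqs]; ring
        rw [this]
        field_simp
      have g7 : q⁻¹ * B ≤ 2 / 3 := by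
        rw [inv_mul_le_iff₀ hq0]
        linarith
      refine mem_iUnion₂.2 ⟨w', ⟨g3, g4, by rw [g5]; exact g7⟩, ?_⟩
      have g8 : w ∈ capA w' ε₁ := by
        rw [mem_cap g3 hw1 hε₁0.le ((min_le_right _ _).trans (by linarith)), g6]
        exact hq2
      exact ⟨g8.1, g8.2.trans_le (min_le_left _ _)⟩
  exact hNB n (Real.pi / 2 + t / 2) hnn1 (by linarith)
    ⟨g', hg'.1.mono hsub, fun w hw => hg'.2 w (hsub hw)⟩

end Pool.Agent.Q277.DP
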