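import Pool.Agent.Q277.DP.Q

/-!
# Project DP: jobs DP-16 (S_UNIQ), DP-17 (S_REG), DP-19 (S_RAD), DP-20 (S_TRI)
-/

set_option autoImplicit false

namespace Pool.Agent.Q277.DP

open MeasureTheory Topology Filter Set Metric
open Pool.Agent.Q61.DP

theorem t_UNIQ : S_UNIQ := by
  intro P hP g g' A hA hg hg' ⟨w₀, hw₀, h0⟩
  have key : ∀ w ∈ A, g w = g' w → ∀ᶠ v in 𝓝[A] w, g v = g' v := by
    intro w hw h
    obtain ⟨ε, hε, hε2, k, hk, hk2, O', hO', hk3⟩ := hP.2.2 (g w) univ univ_mem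
    have h1 : ∀ᶠ v in 𝓝[A] w, g v ∈ O' := (hg.1 w hw).eventually hO'
    have h2 : ∀ᶠ v in 𝓝[A] w, g' v ∈ O' := (hg'.1 w hw).eventually (by rw [← h]; exact hO')
    filter_upwards [h1, h2, self_mem_nhdsWithin] with v a1 a2 a3
    have b1 := (hk3 _ a1).2
    have b2 := (hk3 _ a2).2
    rw [hg.2 v a3] at b1
    rw [hg'.2 v a3] at b2
    rw [← b1, b2]
  have : PreconnectedSpace A := isPreconnected_iff_preconnectedSpace.1 hA
  have hcl : IsClopen {v : A | g v = g' v} := by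
    constructor
    · exact isClosed_eq hg.1.domRestrict hg'.1.domRestrict
    · rw [isOpen_iff_eventually]
      intro v hv
      exact (eventually_nhds_subtype_iff A v (fun x => g x = g' x)).2 (key v v.2 hv)
  have huniv : {v : A | g v = g' v} = univ := hcl.eq_univ ⟨⟨w₀, hw₀⟩, h0⟩
  intro w hw
  have : (⟨w, hw⟩ : A) ∈ {v : A | g v = g' v} := by
    rw [huniv]
    trivial
  exact this

theorem conv2 (hC : S_CONV) (n₁ n₂ : E3) (r₁ r₂ : ℝ) (h1 : r₁ ≤ Real.pi / 2) (h2 : r₂ ≤ Real.pi / 2) :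
    IsPreconnected (capA n₁ r₁ ∩ capA n₂ r₂) := by
  have h := hC n₁ n₂ n₂ r₁ r₂ r₂ h1 h2 h2
  rwa [inter_assoc, inter_self] at h

theorem cap_ang {n : E3} (hn : n ≠ 0) {r : ℝ} {w : E3} (hw : w ≠ 0)
    (h : InnerProductGeometry.angle w n < r) :
    ∀ᶠ v in 𝓝 w, InnerProductGeometry.angle v n < r := by
  have h1 : ContinuousAt (fun v : E3 => InnerProductGeometry.angle v n) w := by
    have := InnerProductGeometry.continuousAt_angle (x := (w, n)) hw hn
    exact ContinuousAt.comp (f := fun v : E3 => (v, n)) (g := fun y : E3 × E3 =>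
      InnerProductGeometry.angle y.1 y.2) this (by fun_prop)
  exact h1.eventually_lt_const h

theorem ne_of_norm {w : E3} (h : ‖w‖ = 1) : w ≠ 0 := by
  rintro rfl
  simp at h

theorem cap_nhds {n : E3} (hn : n ≠ 0) {r : ℝ} {w : E3} {S : Set E3} (hS : ∀ v ∈ S, ‖v‖ = 1)
    (hw : w ∈ capA n r) : capA n r ∈ 𝓝[S] w := by
  have h1 := cap_ang hn (ne_of_norm hw.1) hw.2
  filter_upwards [h1.filter_mono nhdsWithin_le_nhds, self_mem_nhdsWithin] with v a1 a2
  exact ⟨hS v a2, a1⟩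

theorem self_cap {n : E3} {r : ℝ} (hn : ‖n‖ = 1) (hr : 0 < r) : n ∈ capA n r :=
  ⟨hn, by rw [InnerProductGeometry.angle_self (ne_of_norm hn)]; exact hr⟩

theorem cap_mono {n : E3} {r r' : ℝ} (h : r ≤ r') : capA n r ⊆ capA n r' :=
  fun _ hw => ⟨hw.1, hw.2.trans_le h⟩

theorem t_REG (hU : S_UNIQ) (hC : S_CONV) : S_REG := by
  intro P hP n c r g hn hr0 hr1 hg hc hcn hT
  have h1 : ∃ K : Set ℂ, IsCompact K ∧ ∃ᶠ w in 𝓝[capA n r] c, g w ∈ K := by
    by_contra h
    push Not at h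
    apply hT
    rw [hasBasis_cocompact.tendsto_right_iff]
    intro K hK
    exact h K hK
  obtain ⟨K, hK, hf⟩ := h1
  obtain ⟨z, hzK, hz⟩ := hK.exists_mapClusterPt_of_frequently hf
  have hPz : P z = c := by
    have h2 : MapClusterPt (P z) (𝓝[capA n r] c) (P ∘ g) := hz.continuousAt_comp hP.1.continuousAt
    have h3 : map (P ∘ g) (𝓝[capA n r] c) = map id (𝓝[capA n r] c) := by
      apply Filter.map_congr
      filter_upwards [self_mem_nhdsWithin] with w hw
      exact hg.2 w hw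
    unfold MapClusterPt at h2
    rw [h3, map_id] at h2
    have h4 : ClusterPt (P z) (𝓝 c) := h2.mono nhdsWithin_le_nhds
    exact eq_of_nhds_neBot h4
  obtain ⟨ε, hε, hε2, k, hk, hk2, O', hO', hk3⟩ := hP.2.2 z univ univ_mem
  rw [hPz] at hk hk2 hk3
  refine ⟨ε, hε, hε2, k, ⟨hk, fun w hw => (hk2 w hw).1⟩, ?_⟩
  have h5 : ∃ᶠ w in 𝓝[capA n r] c, g w ∈ O' := hz.frequently hO'
  obtain ⟨w, hw, hw2⟩ := (h5.and_eventually self_mem_nhdsWithin).exists
  have h6 := hk3 (g w) hw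
  rw [hg.2 w hw2] at h6
  intro v hv
  refine hU P hP k g (capA n r ∩ capA c ε) (conv2 hC _ _ _ _ hr1 hε2)
    ⟨hk.mono inter_subset_right, fun w hw => (hk2 w hw.2).1⟩
    ⟨hg.1.mono inter_subset_left, fun w hw => hg.2 w hw.1⟩ ⟨w, ⟨hw2, h6.1⟩, h6.2⟩ v hv

theorem sec_mono {P : ℂ → E3} {g : E3 → ℂ} {A B : Set E3} (h : Sec P g B) (hAB : A ⊆ B) : Sec P g A :=
  ⟨h.1.mono hAB, fun w hw => h.2 w (hAB hw)⟩

theorem t_RAD (hU : S_UNIQ) (hC : S_CONV) : S_RAD := by
  intro P hP z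
  have hn := hP.2.1 z
  have hne : (RadSet P z).Nonempty := by
    obtain ⟨ε, hε, hε2, k, hk, hk2, O', hO', hk3⟩ := hP.2.2 z univ univ_mem
    exact ⟨ε, hε, hε2, k, ⟨hk, fun w hw => (hk2 w hw).1⟩, (hk3 z (mem_of_mem_nhds hO')).2⟩
  have hbd : BddAbove (RadSet P z) := ⟨Real.pi / 2, fun r hr => hr.2.1⟩
  have hR0 : 0 < rad P z := by
    obtain ⟨r, hr⟩ := hne
    exact hr.1.trans_le (le_csSup hbd hr)
  have hR1 : rad P z ≤ Real.pi / 2 := csSup_le hne fun r hr => hr.2.1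
  have hex : ∀ w ∈ capA (P z) (rad P z), ∃ r ∈ RadSet P z, w ∈ capA (P z) r := by
    intro w hw
    obtain ⟨r, hr, hr2⟩ := exists_lt_of_lt_csSup hne hw.2
    exact ⟨r, hr, hw.1, hr2⟩
  have hsec : ∀ r ∈ RadSet P z, ∃ g, Sec P g (capA (P z) r) ∧ g (P z) = z := fun r hr => hr.2.2
  choose! G hG using hsec
  choose! ρ hρ using hex
  have hag : ∀ r ∈ RadSet P z, ∀ r' ∈ RadSet P z, ∀ w ∈ capA (P z) r ∩ capA (P z) r', G r w = G r' w := by
    intro r hr r' hr' w hw
    exact hU P hP (G r) (G r') _ (conv2 hC _ _ _ _ hr.2.1 hr'.2.1)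
      (sec_mono (hG r hr).1 inter_subset_left) (sec_mono (hG r' hr').1 inter_subset_right)
      ⟨P z, ⟨self_cap hn hr.1, self_cap hn hr'.1⟩, by rw [(hG r hr).2, (hG r' hr').2]⟩ w hw
  have hval : ∀ r ∈ RadSet P z, ∀ w ∈ capA (P z) r, w ∈ capA (P z) (rad P z) →
      G (ρ w) w = G r w := fun r hr w hw hw2 =>
    hag _ (hρ w hw2).1 _ hr w ⟨(hρ w hw2).2, hw⟩
  refine ⟨hR0, hR1, fun w => G (ρ w) w, ⟨?_, fun w hw => ?_⟩, ?_⟩
  · intro w hw
    obtain ⟨hr, hr2⟩ := hρ w hw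
    have h1 : ContinuousWithinAt (G (ρ w)) (capA (P z) (rad P z)) w := by
      have h2 := (hG _ hr).1.1 w hr2
      refine h2.mono_of_mem_nhdsWithin ?_
      exact cap_nhds (ne_of_norm hn) (fun v hv => hv.1) hr2
    refine h1.congr_of_eventuallyEq ?_ rfl
    have h3 := cap_nhds (ne_of_norm hn) (S := capA (P z) (rad P z)) (fun v hv => hv.1) hr2
    filter_upwards [h3, self_mem_nhdsWithin] with v a1 a2
    exact hval _ hr v a1 a2
  · exact (hG _ (hρ w hw).1).1.2 w (hρ w hw).2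
  · exact (hG _ (hρ (P z) (self_cap hn hR0)).1).2

theorem t_TRI (hU : S_UNIQ) (hC : S_CONV) (hR : S_RAD) : S_TRI := by
  intro P hP
  have hbd : ∀ z, BddAbove (RadSet P z) := fun z => ⟨Real.pi / 2, fun r hr => hr.2.1⟩
  have hc : ∀ z g A, Sec P g A → (∃ r, 0 < r ∧ capA (P z) r ⊆ A) → g (P z) = z →
      ∀ᶠ z' in 𝓝 z, P z' ∈ A ∧ g (P z') = z' := by
    rintro z g A hg ⟨r, hr, hrA⟩ hgz
    have hn := hP.2.1 z
    obtain ⟨ε, hε, hε2, k, hk, hk2, O', hO', hk3⟩ := hP.2.2 z univ univ_mem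
    set r' := min r (Real.pi / 2) with hr'
    have hr'0 : 0 < r' := lt_min hr (by positivity)
    have h1 : ∀ᶠ z' in 𝓝 z, P z' ∈ capA (P z) r' := by
      have h2 := cap_ang (ne_of_norm hn) (ne_of_norm hn) (self_cap hn hr'0).2
      filter_upwards [hP.1.continuousAt.eventually h2] with z' h3
      exact ⟨hP.2.1 z', h3⟩
    filter_upwards [h1, hO'] with z' a1 a2
    have a3 := hk3 z' a2
    refine ⟨hrA (cap_mono (min_le_left _ _) a1), ?_⟩
    have h4 := hU P hP g k (capA (P z) r' ∩ capA (P z) ε) (conv2 hC _ _ _ _ (min_le_right _ _) hε2)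
      (sec_mono hg (inter_subset_left.trans ((cap_mono (min_le_left _ _)).trans hrA)))
      ⟨hk.mono inter_subset_right, fun w hw => (hk2 w hw.2).1⟩
      ⟨P z, ⟨self_cap hn hr'0, self_cap hn hε⟩, by
        rw [hgz, (hk3 z (mem_of_mem_nhds hO')).2]⟩ (P z') ⟨a1, a3.1⟩
    rw [h4, a3.2]
  have hlow : ∀ z g w, IsBr P z g → w ∈ capA (P z) (rad P z) →
      rad P z - InnerProductGeometry.angle w (P z) ≤ rad P (g w) := by
    intro z g w hg hw
    refine le_csSup (hbd _) ⟨by linarith [hw.2], ?_, g, ?_, ?_⟩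
    · have := (hR P hP z).2.1
      have := InnerProductGeometry.angle_nonneg w (P z)
      linarith
    · rw [hg.1.2 w hw]
      refine sec_mono hg.1 fun v hv => ⟨hv.1, ?_⟩
      have h1 := InnerProductGeometry.angle_le_angle_add_angle v w (P z)
      have h2 := hv.2
      linarith
    · rw [hg.1.2 w hw]
  have hb : ∀ z g w, IsBr P z g → w ∈ capA (P z) (rad P z) →
      P (g w) = w ∧ |rad P (g w) - rad P z| ≤ InnerProductGeometry.angle w (P z) ∧
      ∀ g', IsBr P (g w) g' → ∀ p ∈ capA (P z) (rad P z) ∩ capA w (rad P (g w)), g' p = g p := by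
    intro z g w hg hw
    have hPg := hg.1.2 w hw
    have hag : ∀ g', IsBr P (g w) g' → ∀ p ∈ capA (P z) (rad P z) ∩ capA w (rad P (g w)), g' p = g p := by
      intro g' hg' p hp
      have h1 := hg'.1
      rw [hPg] at h1
      refine hU P hP g' g _ (conv2 hC _ _ _ _ (hR P hP z).2.1 (hR P hP (g w)).2.1)
        (sec_mono h1 inter_subset_right) (sec_mono hg.1 inter_subset_left)
        ⟨w, ⟨hw, self_cap hw.1 (hR P hP (g w)).1⟩, ?_⟩ p hp
      have := hg'.2
      rwa [hPg] at this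
    refine ⟨hPg, abs_le.2 ⟨by linarith [hlow z g w hg hw], ?_⟩, hag⟩
    by_cases h : InnerProductGeometry.angle w (P z) < rad P (g w)
    · obtain ⟨-, -, g', hg', hg'2⟩ := hR P hP (g w)
      have hbr : IsBr P (g w) g' := ⟨hg', hg'2⟩
      have h1 : P z ∈ capA (P (g w)) (rad P (g w)) := by
        rw [hPg]
        exact ⟨hP.2.1 z, by rw [InnerProductGeometry.angle_comm]; exact h⟩
      have h2 := hlow (g w) g' (P z) hbr h1
      have h3 : g' (P z) = z := by
        rw [hPg] at h1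
        rw [hag g' hbr (P z) ⟨self_cap (hP.2.1 z) (hR P hP z).1, h1⟩]
        exact hg.2
      rw [h3, hPg, InnerProductGeometry.angle_comm] at h2
      linarith
    · push Not at h
      have := (hR P hP z).1
      linarith
  refine ⟨?_, hb, hc⟩
  rw [continuous_iff_continuousAt]
  intro z
  obtain ⟨hr0, -, g, hg, hg2⟩ := hR P hP z
  have hbr : IsBr P z g := ⟨hg, hg2⟩
  have h1 := hc z g _ hg ⟨rad P z, hr0, Subset.rfl⟩ hg2
  rw [ContinuousAt, tendsto_iff_dist_tendsto_zero]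
  have h2 : ContinuousAt (fun z' => InnerProductGeometry.angle (P z') (P z)) z := by
    have := InnerProductGeometry.continuousAt_angle (x := (P z, P z)) (ne_of_norm (hP.2.1 z))
      (ne_of_norm (hP.2.1 z))
    refine ContinuousAt.comp (f := fun z' : ℂ => (P z', P z)) (g := fun y : E3 × E3 =>
      InnerProductGeometry.angle y.1 y.2) this ?_
    exact hP.1.continuousAt.prodMk continuousAt_const
  have h3 : Tendsto (fun z' => InnerProductGeometry.angle (P z') (P z)) (𝓝 z) (𝓝 0) := by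
    have h4 := h2.tendsto
    rwa [InnerProductGeometry.angle_self (ne_of_norm (hP.2.1 z))] at h4
  refine squeeze_zero' (Eventually.of_forall fun _ => dist_nonneg) ?_ h3
  filter_upwards [h1] with z' ⟨a1, a2⟩
  rw [Real.dist_eq]
  have := (hb z g (P z') hbr a1).2.1
  rwa [a2] at this

end Pool.Agent.Q277.DP
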