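import Pool.Agent.Q61.DP.Stm

/-!
# Project DP: job DP-51 (S_C2)
-/

set_option autoImplicit false

namespace Pool.Agent.Q277.DP

open MeasureTheory InnerProductSpace Laplacian Topology Filter Set Metric
open Pool.Agent.Q61.DP

theorem lap_onedim {u : ℂ → ℝ} {f : ℝ → ℝ} {e : ℂ} (he : ‖e‖ = 1) (hf : ContDiff ℝ 2 f)
    (hu : ∀ x, u x = f (inner ℝ x e)) (z : ℂ) : (Δ u) z = deriv (deriv f) (inner ℝ z e) := by
  set L : ℂ →L[ℝ] ℝ := innerSL ℝ e with hL
  have hLx : ∀ x, L x = inner ℝ x e := fun x => by
    rw [hL, innerSL_apply_apply, real_inner_comm]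
  have hu2 : u = f ∘ L := by
    funext x
    rw [Function.comp_apply, hLx, hu]
  rw [laplacian_eq_iteratedFDeriv_complexPlane, hu2]
  simp only
  rw [L.iteratedFDeriv_comp_right hf z (by norm_num : ((2 : ℕ) : WithTop ℕ∞) ≤ 2)]
  simp only [ContinuousMultilinearMap.compContinuousLinearMap_apply]
  rw [iteratedFDeriv_apply_eq_iteratedDeriv_mul_prod, iteratedFDeriv_apply_eq_iteratedDeriv_mul_prod,
    ← add_smul]
  have h1 : iteratedDeriv 2 f = deriv (deriv f) := by
    rw [iteratedDeriv_succ, iteratedDeriv_one]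
  have h2 : e.re ^ 2 + e.im ^ 2 = 1 := by
    have := Complex.sq_norm e
    rw [he, Complex.normSq_apply] at this
    nlinarith
  have h3 : (∏ i : Fin 2, L (![1, 1] i)) + ∏ i : Fin 2, L (![Complex.I, Complex.I] i) = 1 := by
    simp only [Fin.prod_univ_two, Matrix.cons_val_zero, Matrix.cons_val_one, hLx, Complex.inner]
    simp
    nlinarith
  rw [h3, one_smul, h1, hLx]

theorem ode_sol {f : ℝ → ℝ} (hf : ContDiff ℝ 2 f)
    (h : ∀ t, deriv (deriv f) t + Real.exp (2 * f t) = 0) :
    ∃ c t₀ : ℝ, 0 < c ∧ ∀ t, f t = Real.log (c / Real.cosh (c * (t - t₀))) := by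
  have hd : ∀ t, HasDerivAt f (deriv f t) t := fun t =>
    (hf.differentiable (by norm_num) t).hasDerivAt
  have hf' : ContDiff ℝ 1 (deriv f) := by
    have h2 : ContDiff ℝ (1 + 1) f := by norm_num; exact hf
    exact (contDiff_succ_iff_deriv.1 h2).2.2
  have hdd : ∀ t, HasDerivAt (deriv f) (-Real.exp (2 * f t)) t := fun t => by
    have h1 := (hf'.differentiable (by norm_num) t).hasDerivAt
    have h2 : deriv (deriv f) t = -Real.exp (2 * f t) := by linarith [h t]
    rwa [h2] at h1
  have hE : ∀ t, (deriv f t) ^ 2 + Real.exp (2 * f t) = (deriv f 0) ^ 2 + Real.exp (2 * f 0) := by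
    have h1 : ∀ t, HasDerivAt (fun t => (deriv f t) ^ 2 + Real.exp (2 * f t)) 0 t := by
      intro t
      have h2 := ((hdd t).pow 2).add (((hd t).const_mul 2).exp)
      have h3 : ((2 : ℕ) : ℝ) * deriv f t ^ (2 - 1) * -Real.exp (2 * f t) +
          Real.exp (2 * f t) * (2 * deriv f t) = 0 := by
        norm_num
        ring
      rw [h3] at h2
      exact h2
    intro t
    exact is_const_of_deriv_eq_zero (fun t => (h1 t).differentiableAt) (fun t => (h1 t).deriv) t 0
  set E := (deriv f 0) ^ 2 + Real.exp (2 * f 0) with hE0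
  have hEpos : 0 < E := by positivity
  set c := Real.sqrt E with hc
  have hc0 : 0 < c := Real.sqrt_pos.2 hEpos
  have hc2 : c ^ 2 = E := Real.sq_sqrt hEpos.le
  have hA : ∀ t, (c - deriv f t) * Real.exp (-f t - c * t) = (c - deriv f 0) * Real.exp (-f 0 - c * 0) := by
    have h1 : ∀ t, HasDerivAt (fun t => (c - deriv f t) * Real.exp (-f t - c * t)) 0 t := by
      intro t
      have h2 := ((hdd t).const_sub c).mul
        (((hd t).neg.sub ((hasDerivAt_id t).const_mul c)).exp)
      have h3 : -(-Real.exp (2 * f t)) * Real.exp (-f t - c * t) + (c - deriv f t) *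
          (Real.exp (-f t - c * t) * (-deriv f t - c * 1)) = 0 := by
        have h4 := hE t
        have : Real.exp (2 * f t) = c ^ 2 - (deriv f t) ^ 2 := by rw [hc2]; linarith
        rw [this]
        ring
      have h5 : HasDerivAt (fun t => (c - deriv f t) * Real.exp (-f t - c * t))
          (-(-Real.exp (2 * f t)) * Real.exp (-f t - c * t) + (c - deriv f t) *
          (Real.exp (-f t - c * t) * (-deriv f t - c * 1))) t := h2
      rwa [h3] at h5
    intro t
    exact is_const_of_deriv_eq_zero (fun t => (h1 t).differentiableAt) (fun t => (h1 t).deriv) t 0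
  have hB : ∀ t, (c + deriv f t) * Real.exp (-f t + c * t) = (c + deriv f 0) * Real.exp (-f 0 + c * 0) := by
    have h1 : ∀ t, HasDerivAt (fun t => (c + deriv f t) * Real.exp (-f t + c * t)) 0 t := by
      intro t
      have h2 := ((hdd t).const_add c).mul
        (((hd t).neg.add ((hasDerivAt_id t).const_mul c)).exp)
      have h3 : (-Real.exp (2 * f t)) * Real.exp (-f t + c * t) + (c + deriv f t) *
          (Real.exp (-f t + c * t) * (-deriv f t + c * 1)) = 0 := by
        have h4 := hE t
        have : Real.exp (2 * f t) = c ^ 2 - (deriv f t) ^ 2 := by rw [hc2]; linarith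
        rw [this]
        ring
      have h5 : HasDerivAt (fun t => (c + deriv f t) * Real.exp (-f t + c * t))
          ((-Real.exp (2 * f t)) * Real.exp (-f t + c * t) + (c + deriv f t) *
          (Real.exp (-f t + c * t) * (-deriv f t + c * 1))) t := h2
      rwa [h3] at h5
    intro t
    exact is_const_of_deriv_eq_zero (fun t => (h1 t).differentiableAt) (fun t => (h1 t).deriv) t 0
  set A := (c - deriv f 0) * Real.exp (-f 0 - c * 0) with hAd
  set B := (c + deriv f 0) * Real.exp (-f 0 + c * 0) with hBd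
  have hlt : (deriv f 0) ^ 2 < c ^ 2 := by
    rw [hc2, hE0]
    have := Real.exp_pos (2 * f 0)
    linarith
  have hab := abs_lt_of_sq_lt_sq hlt hc0.le
  have hApos : 0 < A := mul_pos (by linarith [(abs_lt.1 hab).2]) (Real.exp_pos _)
  have hAB : A * B = 1 := by
    rw [hAd, hBd]
    have h1 : (c - deriv f 0) * Real.exp (-f 0 - c * 0) * ((c + deriv f 0) * Real.exp (-f 0 + c * 0)) =
        (c ^ 2 - (deriv f 0) ^ 2) * (Real.exp (-f 0 - c * 0) * Real.exp (-f 0 + c * 0)) := by ring
    rw [h1, ← Real.exp_add, hc2, hE0]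
    have h2 : (deriv f 0 ^ 2 + Real.exp (2 * f 0) - deriv f 0 ^ 2) = Real.exp (2 * f 0) := by ring
    rw [h2, ← Real.exp_add, ← Real.exp_zero]
    congr 1
    ring
  refine ⟨c, -Real.log A / c, hc0, fun t => ?_⟩
  have h1 : A = Real.exp (Real.log A) := (Real.exp_log hApos).symm
  have h2 : B = Real.exp (-Real.log A) := by
    rw [Real.exp_neg, Real.exp_log hApos]
    field_simp
    linarith
  have h3 : Real.exp (c * t) * Real.exp (-f t - c * t) = Real.exp (-f t) := by
    rw [← Real.exp_add]
    congr 1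
    ring
  have h4 : Real.exp (-(c * t)) * Real.exp (-f t + c * t) = Real.exp (-f t) := by
    rw [← Real.exp_add]
    congr 1
    ring
  have h5 : A * Real.exp (c * t) + B * Real.exp (-(c * t)) = 2 * c * Real.exp (-f t) := by
    rw [← hA t, ← hB t]
    calc (c - deriv f t) * Real.exp (-f t - c * t) * Real.exp (c * t) +
        (c + deriv f t) * Real.exp (-f t + c * t) * Real.exp (-(c * t))
        = (c - deriv f t) * (Real.exp (c * t) * Real.exp (-f t - c * t)) +
          (c + deriv f t) * (Real.exp (-(c * t)) * Real.exp (-f t + c * t)) := by ring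
      _ = 2 * c * Real.exp (-f t) := by
          rw [h3, h4]
          ring
  have h6 : Real.cosh (c * (t - -Real.log A / c)) = c * Real.exp (-f t) := by
    have h7 : c * (t - -Real.log A / c) = c * t + Real.log A := by
      field_simp
      ring
    rw [Real.cosh_eq, h7]
    have h8 : Real.exp (c * t + Real.log A) = A * Real.exp (c * t) := by
      rw [Real.exp_add, Real.exp_log hApos]
      ring
    have h9 : Real.exp (-(c * t + Real.log A)) = B * Real.exp (-(c * t)) := by
      rw [h2, ← Real.exp_add]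
      congr 1
      ring
    rw [h8, h9, h5]
    ring
  rw [h6, mul_comm c, ← div_div, div_right_comm, div_self hc0.ne', one_div, ← Real.exp_neg, neg_neg,
    Real.log_exp]

theorem t_C2 : S_C2 := by
  rintro u ⟨hu1, hu2⟩ ⟨e, f, he, hu⟩
  have hin : ∀ t : ℝ, inner ℝ ((t : ℝ) • e) e = t := fun t => by
    rw [real_inner_smul_left, real_inner_self_eq_norm_sq, he]
    ring
  have hfu : f = fun t : ℝ => u (t • e) := by
    funext t
    rw [hu, hin]
  have hf : ContDiff ℝ 2 f := by
    rw [hfu]
    exact hu1.comp (contDiff_id.smul contDiff_const)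
  obtain ⟨c, t₀, hc, h⟩ := ode_sol hf (fun t => by
    have h1 := hu2 (t • e)
    rwa [lap_onedim he hf hu, hu, hin] at h1)
  exact ⟨e, c, t₀, he, hc, fun x => by rw [hu, h]⟩

end Pool.Agent.Q277.DP
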