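import Pool.Agent.Q35.DP.Plan

/-!
# Project DP of helper35 (MP_8ae0c1_ag): job LINE

No points of odd height over a line.
-/

set_option autoImplicit false
set_option linter.unusedSectionVars false

namespace Pool.Agent.Q277.DP

open FF Pool.Agent.W603.LV Pool.Agent.TH145.GH Pool.Agent.Y166.DP Pool.Agent.Q35.DP

section
variable {k K : Type} [Field k] [Field K] [Algebra k K]

theorem ord_prod (P : Place k K) {ι : Type} (s : Finset ι) (F : ι → K) (h : ∀ i ∈ s, F i ≠ 0) :
    P.ord (∏ i ∈ s, F i) = ∑ i ∈ s, P.ord (F i) := by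
  classical
  induction s using Finset.induction_on with
  | empty => simp [P.ord_one]
  | insert a s ha ih =>
    rw [Finset.prod_insert ha, Finset.sum_insert ha, P.ord_mul (h a (Finset.mem_insert_self a s))
      (Finset.prod_ne_zero_iff.2 fun i hi => h i (Finset.mem_insert_of_mem hi)),
      ih fun i hi => h i (Finset.mem_insert_of_mem hi)]

/-- The order of `f - b` at a zero of `f - a`, `a ≠ b`. -/
theorem ord_other (P : Place k K) {f : K} {a b : k} (hf : f - algebraMap k K a ≠ 0)
    (h : 0 < P.ord (f - algebraMap k K a)) (hab : a ≠ b) : P.ord (f - algebraMap k K b) = 0 := by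
  have h1 : a - b ≠ 0 := sub_ne_zero.2 hab
  have h2 : algebraMap k K (a - b) ≠ 0 := by
    rwa [Ne, map_eq_zero]
  have h3 : P.ord (algebraMap k K (a - b)) = 0 := P.ord_const h1
  have h4 := P.ord_add_eq h2 hf (by rw [h3]; exact h)
  have e : algebraMap k K (a - b) + (f - algebraMap k K a) = f - algebraMap k K b := by
    rw [map_sub]; ring
  rw [e, h3] at h4
  exact h4.2

theorem max_ord (P : Place k K) {f : K} (hf : Transcendental k f) (a : k) :
    max (-P.ord (f - algebraMap k K a)) 0 = max (-P.ord f) 0 := by
  by_cases ha : a = 0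
  · rw [ha, map_zero, sub_zero]
  have hf0 : f ≠ 0 := by
    rintro rfl
    exact hf isAlgebraic_zero
  have hfa : f - algebraMap k K a ≠ 0 := by
    intro h0
    apply hf
    rw [sub_eq_zero.1 h0]
    exact isAlgebraic_algebraMap a
  have ha' : -algebraMap k K a ≠ 0 := by
    rw [Ne, neg_eq_zero, map_eq_zero]
    exact ha
  have hoa : P.ord (-algebraMap k K a) = 0 := by
    rw [P.ord_neg, P.ord_const ha]
  by_cases h : P.ord f < 0
  · have h1 := P.ord_add_eq hf0 ha' (by rw [hoa]; exact h)
    rw [← sub_eq_add_neg] at h1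
    rw [h1.2]
  · have h1 := P.ord_add hf0 ha' (by rwa [← sub_eq_add_neg])
    rw [← sub_eq_add_neg, hoa] at h1
    have h2 : 0 ≤ P.ord (f - algebraMap k K a) := by
      refine le_trans ?_ h1
      rw [le_min_iff]
      omega
    omega

/-- The quartic polynomial. -/
noncomputable def qp (α β : k) : Polynomial k :=
  Polynomial.X ^ 4 + 1 + (Polynomial.C α * Polynomial.X + Polynomial.C β) ^ 4

theorem qp_ne [CharZero k] (α β : k) : qp α β ≠ 0 := by
  intro h0
  have he : ∀ t : k, t ^ 4 + 1 + (α * t + β) ^ 4 = 0 := by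
    intro t
    have h1 := congrArg (Polynomial.eval t) h0
    unfold qp at h1
    simpa using h1
  have e0 := he 0
  have e1 := he 1
  have e2 := he (-1)
  have e3 := he 2
  have e4 := he (-2)
  have f1 : (144 : k) * (α ^ 2 * β ^ 2) = 0 := by
    linear_combination 16 * (e1 + e2 - 2 * e0) - (e3 + e4 - 2 * e0)
  have f2 : α ^ 2 * β ^ 2 = 0 := (mul_eq_zero.1 f1).resolve_left (by norm_num)
  rcases mul_eq_zero.1 f2 with h | h
  · have hα : α = 0 := pow_eq_zero_iff (by norm_num) |>.1 h
    rw [hα] at e1 e0
    have : (1 : k) = 0 := by linear_combination e1 - e0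
    exact one_ne_zero this
  · have hβ : β = 0 := pow_eq_zero_iff (by norm_num) |>.1 h
    rw [hβ] at e0
    have : (1 : k) = 0 := by linear_combination e0
    exact one_ne_zero this

theorem aeval_qp (α β : k) (f : K) : Polynomial.aeval f (qp α β) =
    f ^ 4 + 1 + (algebraMap k K α * f + algebraMap k K β) ^ 4 := by
  unfold qp
  simp

variable [CharZero k] [IsFF k K] [IsAlgClosed k]

/-- The height of a pair of functions. -/
theorem ht_pair {u v : K} (hv : v ≠ 0) : ht k ![u, v] = hgt k (u / v) := by
  have h1 : (fun i => v * (![u / v, 1] : Fin 2 → K) i) = ![u, v] := by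
    funext i
    fin_cases i
    · simp only [Fin.zero_eta, Matrix.cons_val_zero]
      field_simp
    · simp
  have h2 : (![u / v, 1] : Fin 2 → K) ≠ 0 := by
    intro h
    have := congrFun h 1
    simp at this
  rw [← h1, ht_smul h2 hv]
  unfold ht hgt
  rw [← finsum_neg_distrib]
  refine finsum_congr fun P => ?_
  have h3 : ∀ P : Place k K, mo P (![u / v, 1] : Fin 2 → K) = - max (-P.ord (u / v)) 0 := by
    intro P
    by_cases h : P.ord (u / v) < 0
    · have hne : u / v ≠ 0 := by
        intro h0
        rw [h0, P.ord_zero] at h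
        omega
      have h4 := mo_eq P (g := (![u / v, 1] : Fin 2 → K)) (i := 0) hne (by
        intro j
        fin_cases j
        · exact Or.inr le_rfl
        · right
          show P.ord (u / v) ≤ P.ord 1
          rw [P.ord_one]
          exact h.le)
      rw [h4]
      show P.ord (u / v) = _
      omega
    · have h4 := mo_eq P (g := (![u / v, 1] : Fin 2 → K)) (i := 1) one_ne_zero (by
        intro j
        show Ge P (P.ord 1) _
        rw [P.ord_one]
        fin_cases j
        · right
          show 0 ≤ P.ord (u / v)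
          omega
        · exact Ge.one)
      rw [h4]
      show P.ord 1 = _
      rw [P.ord_one]
      omega
  rw [h3 P, neg_neg]

end

/-- The orders of `x` are even. -/
theorem even_ord_x (h1 : StmInf) {k K : Type} [Field k] [Field K] [Algebra k K] [CharZero k]
    [IsAlgClosed k] [IsFF k K] {lam : k} {x y : K} (hE : Ell k K lam x y) (P : Place k K) :
    Even (P.ord x) := by
  obtain ⟨o, ho, -, hP⟩ := h1 k K lam x y hE
  by_cases hPo : P = o
  · rw [hPo, ho]
    exact ⟨-1, by norm_num⟩
  have hx := (hP P hPo).1.resolve_left (Ell.x0 hE)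
  by_cases h0 : P.ord x = 0
  · rw [h0]; exact Even.zero
  have h2 : 0 < P.ord (x - algebraMap k K 0) := by
    rw [map_zero, sub_zero]; omega
  have h3 := ord_other P (Ell.x_ne hE 0) h2 (b := 1) zero_ne_one
  have h4 := ord_other P (Ell.x_ne hE 0) h2 (b := lam) hE.lam0.symm
  rw [map_one] at h3
  have h5 := congrArg P.ord hE.eqn
  have h6 : x - 1 ≠ 0 := by
    have := Ell.x_ne hE 1
    rwa [map_one] at this
  rw [P.ord_pow, P.ord_mul (mul_ne_zero (Ell.x0 hE) h6) (Ell.x_ne hE lam),
    P.ord_mul (Ell.x0 hE) h6, h3, h4] at h5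
  push_cast at h5
  exact ⟨P.ord y, by omega⟩

/-- `x` is not a square. -/
theorem x_not_sq (h1 : StmInf) (h2 : StmNo1) {k K : Type} [Field k] [Field K] [Algebra k K]
    [CharZero k] [IsAlgClosed k] [IsFF k K] {lam : k} {x y : K} (hE : Ell k K lam x y) (r : K)
    (hr : x = r ^ 2) : False := by
  obtain ⟨o, ho, -, hP⟩ := h1 k K lam x y hE
  have hr0 : r ≠ 0 := by
    rintro rfl
    exact Ell.x0 hE (by rw [hr]; ring)
  refine h2 k K lam x y hE r o ?_ fun P hPo => ?_
  · rw [hr, o.ord_pow] at ho
    push_cast at ho
    omega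
  · have hx := (hP P hPo).1.resolve_left (Ell.x0 hE)
    rw [hr, P.ord_pow] at hx
    push_cast at hx
    right
    omega

theorem core (h1 : StmInf) (h2 : StmNo1) {k K : Type} [Field k] [Field K] [Algebra k K]
    [CharZero k] [IsAlgClosed k] [IsFF k K] {lam : k} {x y : K} (hE : Ell k K lam x y) (u v : K)
    (α β : k) (h : K)
    (hh : h ^ 2 = x * (u ^ 4 + v ^ 4 + (algebraMap k K α * u + algebraMap k K β * v) ^ 4))
    (hodd : Odd (ht k ![u, v])) : False := by
  classical
  by_cases hv : v = 0
  · -- the height is zero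
    have h3 : ht k ![u, v] = 0 := by
      by_cases hu : u = 0
      · have : (![u, v] : Fin 2 → K) = 0 := by
          rw [hu, hv]
          funext i
          fin_cases i <;> rfl
        rw [this]
        unfold ht
        simp [mo_zero]
      · unfold ht
        have h4 : (fun P : Place k K => mo P (![u, v] : Fin 2 → K)) = fun P => P.ord u := by
          funext P
          refine mo_eq P (i := 0) hu fun j => ?_
          fin_cases j
          · exact Or.inr le_rfl
          · exact Or.inl hv
        rw [h4, sum_ord, neg_zero]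
    rw [h3] at hodd
    exact absurd hodd (by decide)
  obtain ⟨f, hf⟩ : ∃ f, f = u / v := ⟨_, rfl⟩
  rw [ht_pair hv, ← hf] at hodd
  have htr : Transcendental k f := by
    intro halg
    have h3 : hgt k f = 0 := by
      obtain ⟨c, hc⟩ := minpoly.mem_range_of_degree_eq_one k f
        (IsAlgClosed.degree_eq_one_of_irreducible k (minpoly.irreducible halg.isIntegral))
      unfold hgt
      rw [← finsum_zero (α := Place k K)]
      refine finsum_congr fun P => ?_
      rw [← hc]
      by_cases hc0 : c = 0
      · rw [hc0, map_zero, P.ord_zero]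
        simp
      · rw [P.ord_const hc0]
        simp
    rw [h3] at hodd
    exact absurd hodd (by decide)
  have hfa : ∀ a : k, f - algebraMap k K a ≠ 0 := by
    intro a h0
    apply htr
    rw [sub_eq_zero.1 h0]
    exact isAlgebraic_algebraMap a
  obtain ⟨q, hq⟩ : ∃ q, q = qp α β := ⟨_, rfl⟩
  have hq0 : q ≠ 0 := by rw [hq]; exact qp_ne α β
  have hqf : Polynomial.aeval f q ≠ 0 := by
    intro h0
    exact htr ⟨q, hq0, h0⟩
  obtain ⟨s, hs⟩ : ∃ s, s = h / v ^ 2 := ⟨_, rfl⟩
  have hsq : s ^ 2 = x * Polynomial.aeval f q := by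
    rw [hq, aeval_qp, hs, hf, div_pow, hh]
    field_simp
  have hs0 : s ≠ 0 := by
    rintro rfl
    have : x * Polynomial.aeval f q = 0 := by rw [← hsq]; ring
    exact mul_ne_zero (Ell.x0 hE) hqf this
  -- the factorization
  have hfac : Polynomial.aeval f q = algebraMap k K q.leadingCoeff *
      ∏ a ∈ q.roots.toFinset, (f - algebraMap k K a) ^ q.roots.count a := by
    have h3 := (IsAlgClosed.splits q).eq_prod_roots
    conv_lhs => rw [h3]
    rw [map_mul, Polynomial.aeval_C, map_multiset_prod, Multiset.map_map,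
      Finset.prod_multiset_map_count]
    simp
  have hlc : q.leadingCoeff ≠ 0 := Polynomial.leadingCoeff_ne_zero.2 hq0
  have hlc' : algebraMap k K q.leadingCoeff ≠ 0 := by rwa [Ne, map_eq_zero]
  by_cases hA : ∃ a, Odd (q.roots.count a)
  · obtain ⟨a, ha⟩ := hA
    have hmem : a ∈ q.roots.toFinset := by
      rw [Multiset.mem_toFinset]
      by_contra hcon
      rw [Multiset.count_eq_zero_of_notMem hcon] at ha
      exact absurd ha (by decide)
    -- the zeros of `f - a` have even orders
    have hev : ∀ P : Place k K, 0 < P.ord (f - algebraMap k K a) →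
        Even (P.ord (f - algebraMap k K a)) := by
      intro P hP
      have h3 : P.ord (Polynomial.aeval f q) = q.roots.count a * P.ord (f - algebraMap k K a) := by
        rw [hfac, P.ord_mul hlc' (Finset.prod_ne_zero_iff.2 fun b _ => pow_ne_zero _ (hfa b)),
          P.ord_const hlc, zero_add, ord_prod P _ _ fun b _ => pow_ne_zero _ (hfa b),
          Finset.sum_eq_single a]
        · rw [P.ord_pow]
        · intro b _ hb
          rw [P.ord_pow, ord_other P (hfa a) hP (Ne.symm hb), mul_zero]
        · intro hcon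
          exact absurd hmem hcon
      have h4 := congrArg P.ord hsq
      rw [P.ord_pow, P.ord_mul (Ell.x0 hE) hqf, h3] at h4
      push_cast at h4
      have h5 := even_ord_x h1 hE P
      have h6 : Even ((q.roots.count a : ℤ) * P.ord (f - algebraMap k K a)) := by
        obtain ⟨e, he⟩ := h5
        exact ⟨P.ord s - e, by omega⟩
      rw [Int.even_mul] at h6
      refine h6.resolve_left ?_
      rw [Int.not_even_iff_odd]
      exact_mod_cast ha
    have h3 : hgt k f = hgt k (f - algebraMap k K a)⁻¹ := by
      rw [hgt_inv]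
      unfold hgt
      exact finsum_congr fun P => (max_ord P htr a).symm
    rw [h3] at hodd
    rw [hgt_finset _ (finite_support (k := k) (f - algebraMap k K a)⁻¹).toFinset (by
      intro P hP; simpa using hP)] at hodd
    have h4 : Even (∑ P ∈ (finite_support (k := k) (f - algebraMap k K a)⁻¹).toFinset,
        max (-P.ord (f - algebraMap k K a)⁻¹) 0) := by
      refine Finset.even_sum _ fun P _ => ?_
      rw [P.ord_inv, neg_neg]
      by_cases h5 : 0 < P.ord (f - algebraMap k K a)
      · rw [max_eq_left h5.le]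
        exact hev P h5
      · rw [max_eq_right (by omega)]
        exact Even.zero
    exact (Int.not_even_iff_odd.2 hodd) h4
  · push Not at hA
    have hB : ∀ a, 2 * (q.roots.count a / 2) = q.roots.count a := by
      intro a
      have := hA a
      rw [Nat.not_odd_iff_even] at this
      exact Nat.two_mul_div_two_of_even this
    obtain ⟨c, hc⟩ := IsAlgClosed.exists_pow_nat_eq q.leadingCoeff (n := 2) (by norm_num)
    obtain ⟨p, hp⟩ : ∃ p, p = algebraMap k K c * ∏ a ∈ q.roots.toFinset,
      (f - algebraMap k K a) ^ (q.roots.count a / 2) := ⟨_, rfl⟩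
    have h3 : Polynomial.aeval f q = p ^ 2 := by
      rw [hp, mul_pow, ← Finset.prod_pow, ← map_pow, hc, hfac]
      rw [Finset.prod_congr rfl fun a _ => ?_]
      rw [← pow_mul, mul_comm (q.roots.count a / 2) 2, hB a]
    have hp0 : p ≠ 0 := by
      rintro h0
      rw [h0] at h3
      exact hqf (by rw [h3]; ring)
    refine x_not_sq h1 h2 hE (s / p) ?_
    rw [div_pow, hsq, h3]
    field_simp

/-- The height of two of the functions. -/
theorem ht_two {k K : Type} [Field k] [Field K] [Algebra k K] [CharZero k] [IsAlgClosed k]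
    [IsFF k K] (g : Fin 3 → K) (hodd : Odd (ht k g)) (i j l : Fin 3) (hij : ∀ t, t = i ∨ t = j ∨ t = l)
    (α β : k) (hl : g l = algebraMap k K α * g i + algebraMap k K β * g j) :
    Odd (ht k ![g i, g j]) := by
  have hg0 : g ≠ 0 := by
    rintro rfl
    have : ht k (0 : Fin 3 → K) = 0 := by
      unfold ht
      simp [mo_zero]
    rw [this] at hodd
    exact absurd hodd (by decide)
  have hp0 : (![g i, g j] : Fin 2 → K) ≠ 0 := by
    intro h0
    have e0 : g i = 0 := congrFun h0 0
    have e1 : g j = 0 := congrFun h0 1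
    apply hg0
    funext t
    rcases hij t with rfl | rfl | rfl
    · exact e0
    · exact e1
    · rw [hl, e0, e1]
      simp
  have h1 : ht k ![g i, g j] ≤ ht k g := by
    refine ht_le_of_comb hp0 fun t => ?_
    have key : ∀ t' : Fin 3, ∃ a : Fin 3 → k, g t' = ∑ᶠ i, algebraMap k K (a i) * g i := by
      intro t'
      refine ⟨Pi.single t' 1, ?_⟩
      rw [finsum_eq_sum_of_fintype, Finset.sum_eq_single t']
      · rw [Pi.single_eq_same, map_one, one_mul]
      · intro b _ hb
        rw [Pi.single_eq_of_ne hb, map_zero, zero_mul]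
      · intro hcon
        exact absurd (Finset.mem_univ _) hcon
    fin_cases t
    · exact key i
    · exact key j
  have h2 : ht k g ≤ ht k ![g i, g j] := by
    refine ht_le_of_comb hg0 fun t => ?_
    rcases hij t with rfl | rfl | rfl
    · refine ⟨![1, 0], ?_⟩
      rw [finsum_eq_sum_of_fintype]
      simp
    · refine ⟨![0, 1], ?_⟩
      rw [finsum_eq_sum_of_fintype]
      simp
    · refine ⟨![α, β], ?_⟩
      rw [finsum_eq_sum_of_fintype, Fin.sum_univ_two, hl]
      simp
  rwa [le_antisymm h1 h2]

/-- JOB LINE. -/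
theorem line (h1 : StmInf) (h2 : StmNo1) : StmLine := by
  intro k K _ _ _ _ _ _ lam x y hE g h hh hodd a ha hrel
  rw [Fin.sum_univ_three] at hrel
  obtain ⟨l, hl⟩ := Function.ne_iff.1 ha
  have hl' : a l ≠ 0 := hl
  have hl'' : algebraMap k K (a l) ≠ 0 := by rwa [Ne, map_eq_zero]
  unfold quart at hh
  fin_cases l
  · simp only [Fin.zero_eta] at hl' hl''
    have e : g 0 = algebraMap k K (-(a 1) / a 0) * g 1 + algebraMap k K (-(a 2) / a 0) * g 2 := by
      rw [map_div₀, map_div₀, map_neg, map_neg]
      field_simp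
      linear_combination hrel
    refine core h1 h2 hE (g 1) (g 2) (-(a 1) / a 0) (-(a 2) / a 0) h ?_
      (ht_two g hodd 1 2 0 (by decide) _ _ e)
    rw [← e, hh]
    ring
  · simp only [Fin.mk_one] at hl' hl''
    have e : g 1 = algebraMap k K (-(a 0) / a 1) * g 0 + algebraMap k K (-(a 2) / a 1) * g 2 := by
      rw [map_div₀, map_div₀, map_neg, map_neg]
      field_simp
      linear_combination hrel
    refine core h1 h2 hE (g 0) (g 2) (-(a 0) / a 1) (-(a 2) / a 1) h ?_
      (ht_two g hodd 0 2 1 (by decide) _ _ e)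
    rw [← e, hh]
    ring
  · simp only [Fin.reduceFinMk] at hl' hl''
    have e : g 2 = algebraMap k K (-(a 0) / a 2) * g 0 + algebraMap k K (-(a 1) / a 2) * g 1 := by
      rw [map_div₀, map_div₀, map_neg, map_neg]
      field_simp
      linear_combination hrel
    refine core h1 h2 hE (g 0) (g 1) (-(a 0) / a 2) (-(a 1) / a 2) h ?_
      (ht_two g hodd 0 1 2 (by decide) _ _ e)
    rw [← e, hh]

end Pool.Agent.Q277.DP
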