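import Pool.Agent.Q35.DP.Plan

/-!
# Project DP of helper35 (MP_8ae0c1_ag): job SM

There is no nonconstant map from an elliptic curve to the Fermat quartic curve.
-/

set_option autoImplicit false
set_option linter.unusedSectionVars false

namespace Pool.Agent.Q277.DP

open FF Pool.Agent.W603.LV Pool.Agent.TH145.GH Pool.Agent.Y166.DP Pool.Agent.Q35.DP

section
variable {k K : Type} [Field k] [Field K] [Algebra k K] [CharZero k] [IsFF k K] [IsAlgClosed k]

/-- A derivation of order `0` at `P` preserves the local ring. -/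
theorem reg_of_vo (P : Place k K) {δ : Derivation k K K} (hδ : δ ≠ 0) (hv : vo P δ = 0) {f : K}
    (hf : Ge P 0 f) : Ge P 0 (δ f) := by
  obtain ⟨g, hg, e⟩ := der_mul P (ord_unif P) hδ hf
  rw [e]
  have h1 : Ge P 0 (δ (unif P)) := Or.inr (le_of_eq hv.symm)
  simpa using h1.mul hg

/-- The order of the cross product. -/
theorem ge_cross (P : Place k K) {δ : Derivation k K K} (hδ : δ ≠ 0) (hv : vo P δ = 0) {a b : K}
    {m : ℤ} (ha : Ge P m a) (hb : Ge P m b) : Ge P (2 * m) (a * δ b - b * δ a) := by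
  have hπ := ord_unif P
  set π := unif P with hπd
  have hπ0 : π ≠ 0 := by
    intro h
    rw [h, P.ord_zero] at hπ
    omega
  have hp : π ^ m ≠ 0 := zpow_ne_zero m hπ0
  have hpo : P.ord (π ^ m) = m := by rw [P.ord_zpow, hπ, mul_one]
  obtain ⟨u, hu⟩ : ∃ u, a = π ^ m * u := ⟨a / π ^ m, by field_simp⟩
  obtain ⟨v, hv'⟩ : ∃ v, b = π ^ m * v := ⟨b / π ^ m, by field_simp⟩
  have hu0 : Ge P 0 u := by
    apply Ge.of_mul' (h := π ^ m) (m := m) hp hpo
    rw [zero_add, ← hu]
    exact ha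
  have hv0 : Ge P 0 v := by
    apply Ge.of_mul' (h := π ^ m) (m := m) hp hpo
    rw [zero_add, ← hv']
    exact hb
  have e : a * δ b - b * δ a = (π ^ m * π ^ m) * (u * δ v - v * δ u) := by
    rw [hu, hv', δ.leibniz, δ.leibniz]
    simp only [smul_eq_mul]
    ring
  rw [e]
  have h1 : Ge P (m + m) (π ^ m * π ^ m) := by
    have h2 : Ge P m (π ^ m) := Or.inr hpo.ge
    exact h2.mul h2
  have h2 : Ge P 0 (u * δ v - v * δ u) := by
    have h3 := hu0.mul (reg_of_vo P hδ hv hv0)
    have h4 := hv0.mul (reg_of_vo P hδ hv hu0)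
    rw [add_zero] at h3 h4
    exact h3.sub h4
  have h3 := h1.mul h2
  have e2 : m + m + 0 = 2 * m := by ring
  rwa [e2] at h3

/-- The height is not positive if `δ` kills all ratios. -/
theorem ht_of_cross {δ : Derivation k K K} (hδ : δ ≠ 0) {ι : Type} [Finite ι] (g : ι → K) (hg : g ≠ 0)
    (h : ∀ i j, g i * δ (g j) - g j * δ (g i) = 0) : ht k g ≤ 0 := by
  obtain ⟨j, hj⟩ := Function.ne_iff.1 hg
  have hj' : g j ≠ 0 := hj
  have h1 : ∀ i, ∃ c : k, g i = algebraMap k K c * g j := by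
    intro i
    have h2 : δ (g i / g j) = 0 := by
      rw [δ.leibniz_div]
      have h3 := h j i
      simp only [smul_eq_mul]
      rw [h3]
      simp
    obtain ⟨c, hc⟩ := const_of_der hδ h2
    refine ⟨c, ?_⟩
    rw [← hc]
    field_simp
  have h2 : ht k g ≤ ht k (fun _ : Unit => g j) := by
    refine ht_le_of_comb hg fun i => ?_
    obtain ⟨c, hc⟩ := h1 i
    refine ⟨fun _ => c, ?_⟩
    rw [finsum_eq_sum_of_fintype]
    simpa using hc
  have h3 : ht k (fun _ : Unit => g j) = 0 := by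
    unfold ht
    have h4 : (fun P : Place k K => mo P (fun _ : Unit => g j)) = fun P => P.ord (g j) := by
      funext P
      exact mo_eq P (i := ()) hj' fun _ => Or.inr le_rfl
    rw [h4, sum_ord, neg_zero]
  omega

end

/-- JOB SM. -/
theorem sm (_ : StmInf) (hd : StmDel) : S_SM := by
  intro k K _ _ _ _ _ _ lam x y hE g hg hq
  obtain ⟨δ, -, -, hδ, hvo⟩ := hd k K lam x y hE
  have hg0 : g ≠ 0 := by
    rintro rfl
    unfold ht at hg
    simp [mo_zero] at hg
  have hK : CharZero K := charZero_of_injective_algebraMap (algebraMap k K).injective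
  -- the derivative of the equation
  have hq' : g 0 ^ 3 * δ (g 0) + g 1 ^ 3 * δ (g 1) + g 2 ^ 3 * δ (g 2) = 0 := by
    have h1 : δ (quart g) = 0 := by rw [hq, map_zero]
    unfold quart at h1
    rw [map_add, map_add, δ.leibniz_pow, δ.leibniz_pow, δ.leibniz_pow] at h1
    simp only [smul_eq_mul, nsmul_eq_mul] at h1
    push_cast at h1
    have h2 : (4 : K) * (g 0 ^ 3 * δ (g 0) + g 1 ^ 3 * δ (g 1) + g 2 ^ 3 * δ (g 2)) = 0 := by
      linear_combination h1
    exact (mul_eq_zero.1 h2).resolve_left (by norm_num)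
  have hq0 : g 0 ^ 3 * g 0 + g 1 ^ 3 * g 1 + g 2 ^ 3 * g 2 = 0 := by
    unfold quart at hq
    linear_combination hq
  -- the cross product
  obtain ⟨w, hw⟩ : ∃ w : Fin 3 → K, w = ![g 1 * δ (g 2) - g 2 * δ (g 1),
    g 2 * δ (g 0) - g 0 * δ (g 2), g 0 * δ (g 1) - g 1 * δ (g 0)] := ⟨_, rfl⟩
  have hw0 : w 0 = g 1 * δ (g 2) - g 2 * δ (g 1) := by rw [hw]; rfl
  have hw1 : w 1 = g 2 * δ (g 0) - g 0 * δ (g 2) := by rw [hw]; rfl
  have hw2 : w 2 = g 0 * δ (g 1) - g 1 * δ (g 0) := by rw [hw]; rfl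
  have hwne : w ≠ 0 := by
    intro h0
    have e0 : w 0 = 0 := by rw [h0]; rfl
    have e1 : w 1 = 0 := by rw [h0]; rfl
    have e2 : w 2 = 0 := by rw [h0]; rfl
    rw [hw0] at e0
    rw [hw1] at e1
    rw [hw2] at e2
    have h1 : ht k g ≤ 0 := by
      refine ht_of_cross hδ g hg0 fun i j => ?_
      fin_cases i <;> fin_cases j <;> simp only [Fin.zero_eta, Fin.mk_one, Fin.reduceFinMk]
      · ring
      · exact e2
      · linear_combination -e1
      · linear_combination -e2
      · ring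
      · exact e0
      · exact e1
      · linear_combination -e0
      · ring
    omega
  -- `q × w = 0`
  have c01 : g 0 ^ 3 * w 1 = g 1 ^ 3 * w 0 := by
    rw [hw0, hw1]
    linear_combination g 2 * hq' - δ (g 2) * hq0
  have c02 : g 0 ^ 3 * w 2 = g 2 ^ 3 * w 0 := by
    rw [hw0, hw2]
    linear_combination - g 1 * hq' + δ (g 1) * hq0
  have c12 : g 1 ^ 3 * w 2 = g 2 ^ 3 * w 1 := by
    rw [hw1, hw2]
    linear_combination g 0 * hq' - δ (g 0) * hq0
  have hcr : ∀ i j, g i ^ 3 * w j = g j ^ 3 * w i := by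
    intro i j
    fin_cases i <;> fin_cases j <;> simp only [Fin.zero_eta, Fin.mk_one, Fin.reduceFinMk]
    · exact c01
    · exact c02
    · exact c01.symm
    · exact c12
    · exact c02.symm
    · exact c12.symm
  obtain ⟨i₀, hi₀⟩ := Function.ne_iff.1 hg0
  have hi₀' : g i₀ ≠ 0 := hi₀
  obtain ⟨f, hf⟩ : ∃ f, f = w i₀ / g i₀ ^ 3 := ⟨_, rfl⟩
  have hwf : ∀ j, w j = f * g j ^ 3 := by
    intro j
    rw [hf]
    have h1 := hcr i₀ j
    field_simp
    linear_combination h1
  have hf0 : f ≠ 0 := by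
    intro h0
    apply hwne
    funext j
    rw [hwf j, h0, zero_mul]
    rfl
  -- the orders
  have hord : ∀ P : Place k K, - mo P g ≤ P.ord f := by
    intro P
    obtain ⟨i, hi, e⟩ := exists_mo P hg0
    have h1 : Ge P (2 * mo P g) (w i) := by
      have hc : ∀ a b, Ge P (2 * mo P g) (g a * δ (g b) - g b * δ (g a)) := fun a b =>
        ge_cross P hδ (hvo P) (ge_mo P g a) (ge_mo P g b)
      fin_cases i <;> simp only [Fin.zero_eta, Fin.mk_one, Fin.reduceFinMk]
      · rw [hw0]; exact hc 1 2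
      · rw [hw1]; exact hc 2 0
      · rw [hw2]; exact hc 0 1
    rw [hwf i] at h1
    have h2 : f * g i ^ 3 ≠ 0 := mul_ne_zero hf0 (pow_ne_zero 3 hi)
    have h3 := h1.resolve_left h2
    rw [P.ord_mul hf0 (pow_ne_zero 3 hi), P.ord_pow, e] at h3
    push_cast at h3
    omega
  classical
  set T : Finset (Place k K) := (mo_supp (k := k) g).toFinset ∪
    (finite_support (k := k) f).toFinset with hT
  have h1 := ht_finset g T (by intro P hP; simp [T, hP])
  have h2 := sum_ord_finset f T (by intro P hP; simp [T, hP])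
  have h3 : ∑ P ∈ T, - mo P g ≤ ∑ P ∈ T, P.ord f := Finset.sum_le_sum fun P _ => hord P
  rw [Finset.sum_neg_distrib] at h3
  omega

end Pool.Agent.Q277.DP
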